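import Pool.Agent.LE.StmtsQX
import Pool.Agent.Helper70_LQF.NNU

/-!
# LQX, row NNU: the parts of the functional are nonnegative
-/

set_option autoImplicit false

open MeasureTheory ProbabilityTheory Function Filter

open scoped ENNReal BigOperators Topology NNReal ComplexOrder Matrix

noncomputable section

namespace Pool.Agent.LE.QX.H32

open Pool.Agent.Anderson hiding box mem_box card_box
open Pool.Agent.Loc Pool.Agent.Mob Pool.Agent.Helper54.Bal
  Pool.Agent.Helper96.EXP Pool.Agent.BED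
open Pool.Agent.LE.MN Pool.Agent.LE.CL Pool.Agent.LE.IR Pool.Agent.LE.QD Pool.Agent.LE.QF

theorem nnu (hw : WabStmt) : NnuStmt := by
  intro d M _ D c₁ C₁ c₀ q hc hA hkp
  have him : 0 < D.m.im := lt_of_lt_of_le hc hA.hm.1
  have hta : 0 ≤ D.ta q.1 := by
    unfold Dat.ta
    positivity
  have hε : 0 < D.ε₁ := lt_of_lt_of_le hA.hδ.1 hA.hδ.2.1
  have hδ : 0 < D.δ := hA.hδ.1
  have hL₀ : 1 ≤ D.L₀ := hA.hj.2.2.1
  have hN : 1 ≤ D.N := hA.hj.2.2.2.1
  have hπ : 0 ≤ D.π₀ := hA.hj.2.2.2.2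
  refine ⟨?_, ?_, ?_, ?_, ?_⟩
  · unfold Dat.U1
    positivity
  · unfold Dat.U2
    positivity
  · unfold Dat.U3
    refine div_nonneg ?_ (by positivity)
    have h1 := ((Matrix.posSemidef_self_mul_conjTranspose (D.Y q)).pow D.j).trace_nonneg
    exact (Complex.le_def.1 h1).1
  · unfold Dat.U4
    refine Finset.sum_nonneg fun a _ => pow_nonneg (div_nonneg ?_ ?_) _
    · unfold Dat.La
      positivity
    · unfold Dat.Ls
      positivity
  · have hsG : ∀ a b, D.G q a b = D.G q b a := fun a b => QD.H76.rs_symm _ _ a b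
    have hX1 : ∀ a b, D.X q a b = D.X q b a := by
      intro a b
      unfold Dat.X
      rw [Matrix.smul_apply, Matrix.smul_apply, QF.H70.Dl_symm _ (QF.H70.KK_symm _ hsG)]
    have hX2 : ∀ f, 0 ≤ qf (D.X q) f := by
      intro f
      unfold Dat.X
      rw [QF.H70.qf_smul]
      exact mul_nonneg hta (QF.H70.qf_Dl_nonneg _ (QF.H70.KK_symm _ hsG)
        (QF.H70.KK_nonneg _) f)
    have h := (hw (Tor d M) (D.X q) D.S D.e₀ D.e₁ (D.ta q.1) D.ϖ D.p hX1 hX2 hA.hS.1 hA.hS.2.1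
      (by linarith [hA.he.1, hA.he.2.1]) (by linarith [hA.he.1]) hta hA.hϖ.1
      (by linarith [hA.hj.2.1])).2.2.1
    exact h

end Pool.Agent.LE.QX.H32
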